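import Pool.Agent.Helper15.UL.GoalsE

/-! # MP_57a173_lc, packet WFM: the formula of the diagonal argument -/

noncomputable section

namespace UL.PkWFM

open UL Pool.Agent.Helper97.Ku NU MeasureTheory

theorem meas_fT {J X : Type} [MeasurableSpace X] (T : ℕ → PF (ℕ ⊕ J)) (x : X → ℕ → Bool)
    (g : X → J → Bool) (hx : ∀ n, Measurable fun u => x u n)
    (hg : ∀ j, Measurable fun u => g u j) (n : ℕ) : Measurable fun u => fT T (x u) (g u) n := by
  refine measurable_to_bool ?_
  have h := PF.measurableSet_tr (X := X) (J := ℕ ⊕ J)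
    (S := Sum.elim (fun n => {u | x u n = true}) (fun j => {u | g u j = true})) (by
      rintro (n | j)
      · exact hx n (MeasurableSet.singleton true)
      · exact hg j (MeasurableSet.singleton true)) (T n)
  have e : (fun u => fT T (x u) (g u) n) ⁻¹' {true} = {u | (T n).tr (fun j => u ∈
      (Sum.elim (fun n => {u | x u n = true}) (fun j => {u | g u j = true}) :
        ℕ ⊕ J → Set X) j)} := by
    ext u
    have e1 : (fun j => u ∈ (Sum.elim (fun n => {u | x u n = true})
        (fun j => {u | g u j = true}) : ℕ ⊕ J → Set X) j) =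
        (Sum.elim (fun n => x u n = true) (fun j => g u j = true) : ℕ ⊕ J → Prop) := by
      funext j
      rcases j with j | j <;> rfl
    show fT T (x u) (g u) n = true ↔ (T n).tr _
    rw [e1]
    simp only [fT, decide_eq_true_eq]
  rw [e]
  exact h

theorem thm : G_PSM → G_COD → G_WFM := by
  intro hP hC J T
  have hS : MeasurableSet {u : (ℕ ⊕ ℕ) ⊕ J → Bool |
      Psi (fun n => u (Sum.inl (Sum.inl n)))
        (fun n => fT T (fun n => u (Sum.inl (Sum.inl n))) (fun j => u (Sum.inr j)) (2 * n + 1))
        (fun n => fT T (fun n => u (Sum.inl (Sum.inl n))) (fun j => u (Sum.inr j)) (2 * n))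
        (fT T (fun n => u (Sum.inl (Sum.inr n))) (fun j => u (Sum.inr j)))} := by
    have hΦ : Measurable (fun u : (ℕ ⊕ ℕ) ⊕ J → Bool =>
        ((fun n => u (Sum.inl (Sum.inl n))),
        (fun n => fT T (fun n => u (Sum.inl (Sum.inl n))) (fun j => u (Sum.inr j)) (2 * n + 1)),
        (fun n => fT T (fun n => u (Sum.inl (Sum.inl n))) (fun j => u (Sum.inr j)) (2 * n)),
        (fT T (fun n => u (Sum.inl (Sum.inr n))) (fun j => u (Sum.inr j))))) := by
      refine Measurable.prodMk ?_ (Measurable.prodMk ?_ (Measurable.prodMk ?_ ?_))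
      · exact measurable_pi_iff.2 fun n => measurable_pi_apply _
      · exact measurable_pi_iff.2 fun n => meas_fT T _ _ (fun n => measurable_pi_apply _)
          (fun j => measurable_pi_apply _) _
      · exact measurable_pi_iff.2 fun n => meas_fT T _ _ (fun n => measurable_pi_apply _)
          (fun j => measurable_pi_apply _) _
      · exact measurable_pi_iff.2 fun n => meas_fT T _ _ (fun n => measurable_pi_apply _)
          (fun j => measurable_pi_apply _) _
    exact hΦ hP
  obtain ⟨W, hW⟩ := hC.2 ((ℕ ⊕ ℕ) ⊕ J) _ hS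
  refine ⟨W, fun x x' g => ?_⟩
  have h := hW (Sum.elim (Sum.elim x x') g)
  have e : (fun j => (Sum.elim (Sum.elim x x') g : (ℕ ⊕ ℕ) ⊕ J → Bool) j = true) =
      (Sum.elim (Sum.elim (fun n => x n = true) (fun n => x' n = true))
        (fun j => g j = true) : (ℕ ⊕ ℕ) ⊕ J → Prop) := by
    funext j
    rcases j with (j | j) | j <;> rfl
  rw [e] at h
  exact h.symm

end UL.PkWFM
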